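import Pool.Agent.H857.EF.Core
import Pool.Agent.H857.SX.Defs

/-!
# Abelian fourfolds with exotic Tate classes: assembly
-/

set_option autoImplicit false

namespace Pool.Agent.H857.EF

open Module Polynomial Pool.Agent.W521.Descent Pool.Agent.W521.Density Pool.Agent.W521.Count
  Pool.Agent.X297.UB Pool.Agent.H857.PB Pool.Agent.H857.PA Pool.Agent.H857.HK

lemma weil_eq (p : ℕ) [Fact p.Prime] (a : ℕ) :
    Pool.Agent.H857.SX.weilPolynomials p a 4 = newtonWeil p a 4 := rfl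

theorem upper (h4 : S4) (h5 : S5b) (h6 : S6b) (h9 : S9) (h14 : S14) :
    ∃ C : ℝ, 0 < C ∧ ∀ (p : ℕ) [Fact p.Prime] (a : ℕ), 0 < a →
      ({f ∈ newtonWeil p a 4 | HasExotic (p ^ a) f}.ncard : ℝ) ≤
        C * Real.sqrt ((p : ℝ) ^ a) ^ 5 := by
  obtain ⟨C, hC, hC'⟩ := h6
  obtain ⟨D, hD, hD'⟩ := h9
  refine ⟨C + D, by positivity, fun p _ a ha => ?_⟩
  have hp : p.Prime := Fact.out
  have hq : 1 < p ^ a := Nat.one_lt_pow ha.ne' hp.one_lt
  have hcast : ((p ^ a : ℕ) : ℝ) = (p : ℝ) ^ a := by push_cast; rfl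
  obtain ⟨hfin, hle⟩ := hC' (p ^ a) (by omega)
  rw [hcast] at hle
  have hle2 := hD' p a ha
  set T := {f ∈ newtonWeil p a 4 | (∃ x : Fin 4 → ℤ, f = wp (p ^ a) 4 x ∧
    ¬ Irreducible (mkPoly 4 x)) ∧ ExL (p ^ a) f} with hT
  have hTfin : T.Finite := newtonWeil_finite.subset fun _ h => h.1
  have hsub : {f ∈ newtonWeil p a 4 | HasExotic (p ^ a) f} ⊆
      {f : ℤ[X] | ∃ (U V : QB) (ζ : ℂ), Data (p ^ a) f U V ζ} ∪ T := by
    rintro f ⟨hf, hex⟩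
    have hw := hf.1
    have hL := h14 (p ^ a) hq f hw hex
    obtain ⟨x, hx, -⟩ := exists_point (by omega) hw
    have hx' : wp (p ^ a) 4 x = f := hx.symm
    by_cases hirr : Irreducible (mkPoly 4 x)
    · left
      rw [← hx'] at hf hL
      obtain ⟨β, hβ⟩ := h4 p a ha x hf hirr hL
      rw [← hx']
      exact h5 (p ^ a) (by omega) x β hf.1 hβ
    · right
      exact ⟨hf, ⟨x, hx'.symm, hirr⟩, hL⟩
  have h1 : ({f ∈ newtonWeil p a 4 | HasExotic (p ^ a) f}.ncard : ℝ) ≤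
      ({f : ℤ[X] | ∃ (U V : QB) (ζ : ℂ), Data (p ^ a) f U V ζ}.ncard : ℝ) + T.ncard := by
    have h2 := Set.ncard_le_ncard hsub (hfin.union hTfin)
    have h3 := Set.ncard_union_le {f : ℤ[X] | ∃ (U V : QB) (ζ : ℂ), Data (p ^ a) f U V ζ} T
    exact_mod_cast h2.trans h3
  nlinarith [h1, hle, hle2]

/-- The main theorem. -/
theorem main (h4 : S4) (h5 : S5b) (h6 : S6b) (h9 : S9) (h12 : S12) (h13 : S13) (h14 : S14)
    (h15 : S15) (h16 : S16) (h17 : S17) (h18 : S18) (h22 : S22) (h23 : S23) (h24 : S24) :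
    ∃ C : ℝ, 0 < C ∧ ∃ m : ℕ, 0 < m ∧ ∀ (p : ℕ) [Fact p.Prime] (a : ℕ), 0 < a →
      ((Pool.Agent.H857.SX.weilPolynomials p a 4).Finite ∧
        Real.sqrt ((p : ℝ) ^ a) ^ 10 ≤
          C * (Pool.Agent.H857.SX.weilPolynomials p a 4).ncard ∧
        (Pool.Agent.H857.SX.weilPolynomials p a 4).ncard ≤
          C * Real.sqrt ((p : ℝ) ^ a) ^ 10) ∧
      ({f ∈ Pool.Agent.H857.SX.weilPolynomials p a 4 | HasExotic (p ^ a) f}.ncard : ℝ) ≤
        C * Real.sqrt ((p : ℝ) ^ a) ^ 5 ∧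
      (C < (p : ℝ) ^ a → Real.sqrt ((p : ℝ) ^ a) ^ 5 ≤ C *
        ({f ∈ Pool.Agent.H857.SX.weilPolynomials p a 4 |
          IsExotic (p ^ a) f ∧ HasExotic (p ^ a) f}.ncard : ℝ)) ∧
      ∀ f ∈ Pool.Agent.H857.SX.weilPolynomials p a 4, ¬ HasExotic (p ^ a) f →
        ∃ g : ℤ[X], IsPowerPoly f m g ∧ PolesOfPowers ((p ^ a) ^ m) g ∧
          TateForPowers ((p ^ a) ^ m) g := by
  obtain ⟨C, hC, hC'⟩ := upper h4 h5 h6 h9 h14
  obtain ⟨D, hD, hD'⟩ := h22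
  obtain ⟨E, hE, hE'⟩ := h23
  obtain ⟨m, hm⟩ := h12
  refine ⟨C + D + E, by positivity, m, hm.1, fun p _ a ha => ?_⟩
  simp only [weil_eq]
  have hp : p.Prime := Fact.out
  have hq : 1 < p ^ a := Nat.one_lt_pow ha.ne' hp.one_lt
  have hs : (0 : ℝ) ≤ Real.sqrt ((p : ℝ) ^ a) := Real.sqrt_nonneg _
  obtain ⟨e1, e2, e3⟩ := hE' p a ha
  refine ⟨⟨e1, ?_, ?_⟩, ?_, ?_, ?_⟩
  · refine e2.trans (mul_le_mul_of_nonneg_right (by linarith) (Nat.cast_nonneg _))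
  · refine e3.trans (mul_le_mul_of_nonneg_right (by linarith) (by positivity))
  · refine (hC' p a ha).trans (mul_le_mul_of_nonneg_right (by linarith) (by positivity))
  · intro hlarge
    have h1 := hD' p a ha (by linarith)
    have h2 : {f ∈ newtonWeil p a 4 | IsExotic (p ^ a) f} =
        {f ∈ newtonWeil p a 4 | IsExotic (p ^ a) f ∧ HasExotic (p ^ a) f} := by
      ext f
      constructor
      · rintro ⟨h3, h4⟩
        exact ⟨h3, h4, h24 (p ^ a) hq f h3.1 h4⟩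
      · rintro ⟨h3, h4, _⟩
        exact ⟨h3, h4⟩
    rw [h2] at h1
    refine h1.trans (mul_le_mul_of_nonneg_right (by linarith) (Nat.cast_nonneg _))
  · intro f hf hex
    have hL : ¬ ExL (p ^ a) f := fun h => hex (h18 (p ^ a) hq f hf.1.2.2.2 h)
    obtain ⟨g, hg⟩ := h13 f m hf.1.1 hm.1
    refine ⟨g, hg, h15 (p ^ a) m hq hm f hf.1 hL g hg, ?_⟩
    exact h17 ((p ^ a) ^ m) g (Nat.one_lt_pow hm.1.ne' hq) (h16 (p ^ a) m hq hm f hf.1 hL g hg)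

end Pool.Agent.H857.EF
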