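import Pool.Agent.H857.EF.Core2

/-!
# Simple ordinary abelian fourfolds with exotic Tate classes: the list of the statements
-/

set_option autoImplicit false

namespace Pool.Agent.H857.EF

open Module Polynomial Pool.Agent.W521.Descent Pool.Agent.W521.Density Pool.Agent.W521.Count
  Pool.Agent.X297.UB Pool.Agent.H857.PB Pool.Agent.H857.PA Pool.Agent.H857.HK

/-- S33. -/
def S33 : Prop := ∃ C : ℝ, 0 < C ∧ ∀ q : ℕ, 0 < q →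
  ({x : ℤ × ℤ × ℤ | Par q x.1 x.2.1 x.2.2 ∧
    ¬ Irreducible (mkPoly 4 (cf q x.1 x.2.1 x.2.2))}.ncard : ℝ) ≤ C * Real.sqrt q ^ 4

/-- S34. -/
def S34 : Prop := ∀ q : ℕ, 0 < q → ∀ x : Fin 4 → ℤ, wp q 4 x ∈ weilPolys q 4 →
  Irreducible (mkPoly 4 x) → Irreducible (wp q 4 x)

/-- S22i. -/
def S22i : Prop := ∃ C : ℝ, 0 < C ∧ ∀ (p : ℕ) [Fact p.Prime] (a : ℕ), 0 < a →
  C < (p : ℝ) ^ a → Real.sqrt ((p : ℝ) ^ a) ^ 5 ≤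
    C * ({f ∈ ordinaryWeilPolys (p ^ a) 4 | Irreducible f ∧ IsExotic (p ^ a) f}.ncard : ℝ)

/-- S32. -/
def S32 : Prop := ∃ C : ℝ, 0 < C ∧ ∀ (p : ℕ) [Fact p.Prime] (a : ℕ), 0 < a →
  ({f ∈ newtonWeil p a 4 | ¬ Irreducible f}.ncard : ℝ) ≤ C * Real.sqrt ((p : ℝ) ^ a) ^ 7

end Pool.Agent.H857.EF
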