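import Pool.Agent.H857.EF.Asm
import Pool.Agent.H857.EF.Core3

/-!
# Abelian fourfolds with exotic Tate classes: assembly
-/

set_option autoImplicit false

namespace Pool.Agent.H857.EF

open Module Polynomial Pool.Agent.W521.Descent Pool.Agent.W521.Density Pool.Agent.W521.Count
  Pool.Agent.X297.UB Pool.Agent.H857.PB Pool.Agent.H857.PA Pool.Agent.H857.HK

/-- The polynomials of the ordinary fourfolds. -/
lemma ordinary_eq (p : ℕ) [Fact p.Prime] (a : ℕ) (ha : 0 < a) (P : ℤ[X] → Prop) :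
    {f ∈ Pool.Agent.H857.SX.weilPolynomials p a 4 |
      IsCoprime (f.coeff 4) ((p ^ a : ℕ) : ℤ) ∧ P f} =
      {f ∈ ordinaryWeilPolys (p ^ a) 4 | P f} := by
  ext f
  constructor
  · rintro ⟨h1, h2, h3⟩
    exact ⟨⟨h1.1, h2⟩, h3⟩
  · rintro ⟨h1, h3⟩
    exact ⟨ordinary_mem ha h1, h1.2, h3⟩

/-- The main theorem. -/
theorem main2 (h4 : S4) (h5 : S5b) (h6 : S6b) (h9 : S9) (h13 : S13) (h14 : S14)
    (h15 : S15) (h16 : S16) (h17 : S17) (h18 : S18) (h22 : S22i) (h23 : S23) (h24 : S24)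
    (h26 : S26) (h27 : S27) (h28 : S28) (h29 : S29) (h30 : S30) (h31 : S31) (h32 : S32) :
    ∃ C : ℝ, 0 < C ∧ ∃ m : ℕ, 0 < m ∧ ∀ (p : ℕ) [Fact p.Prime] (a : ℕ), 0 < a →
      ((Pool.Agent.H857.SX.weilPolynomials p a 4).Finite ∧
        Real.sqrt ((p : ℝ) ^ a) ^ 10 ≤
          C * (Pool.Agent.H857.SX.weilPolynomials p a 4).ncard ∧
        (Pool.Agent.H857.SX.weilPolynomials p a 4).ncard ≤
          C * Real.sqrt ((p : ℝ) ^ a) ^ 10 ∧
        ({f ∈ Pool.Agent.H857.SX.weilPolynomials p a 4 | ¬ Irreducible f}.ncard : ℝ) ≤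
          C * Real.sqrt ((p : ℝ) ^ a) ^ 7) ∧
      ({f ∈ Pool.Agent.H857.SX.weilPolynomials p a 4 | HasExotic (p ^ a) f}.ncard : ℝ) ≤
        C * Real.sqrt ((p : ℝ) ^ a) ^ 5 ∧
      (C < (p : ℝ) ^ a → Real.sqrt ((p : ℝ) ^ a) ^ 5 ≤ C *
        ({f ∈ Pool.Agent.H857.SX.weilPolynomials p a 4 |
          IsCoprime (f.coeff 4) ((p ^ a : ℕ) : ℤ) ∧ Irreducible f ∧ IsExotic (p ^ a) f ∧
            HasExotic (p ^ a) f}.ncard : ℝ)) ∧
      (∀ f ∈ Pool.Agent.H857.SX.weilPolynomials p a 4, ¬ HasExotic (p ^ a) f →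
        ∃ g : ℤ[X], IsPowerPoly f m g ∧ PolesOfPowers ((p ^ a) ^ m) g ∧
          TateForPowers ((p ^ a) ^ m) g) ∧
      ∀ f ∈ Pool.Agent.H857.SX.weilPolynomials p a 4, Irreducible f →
        ∃ g : ℤ[X], IsPowerPoly f m g ∧ GeneratedInCodimTwo ((p ^ a) ^ m) g ∧
          TateFromCodimTwo ((p ^ a) ^ m) g ∧
          (HasExotic (p ^ a) f → IsExotic ((p ^ a) ^ m) g) := by
  obtain ⟨C, hC, hC'⟩ := upper h4 h5 h6 h9 h14
  obtain ⟨D, hD, hD'⟩ := h22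
  obtain ⟨E, hE, hE'⟩ := h23
  obtain ⟨G, hG, hG'⟩ := h32
  obtain ⟨m, hm, hm4⟩ := h26
  refine ⟨C + D + E + G, by positivity, m, hm.1, fun p _ a ha => ?_⟩
  rw [ordinary_eq p a ha]
  simp only [weil_eq]
  have hp : p.Prime := Fact.out
  have hq : 1 < p ^ a := Nat.one_lt_pow ha.ne' hp.one_lt
  have hs : (0 : ℝ) ≤ Real.sqrt ((p : ℝ) ^ a) := Real.sqrt_nonneg _
  obtain ⟨e1, e2, e3⟩ := hE' p a ha
  refine ⟨⟨e1, ?_, ?_, ?_⟩, ?_, ?_, ?_, ?_⟩
  · refine e2.trans (mul_le_mul_of_nonneg_right (by linarith) (Nat.cast_nonneg _))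
  · refine e3.trans (mul_le_mul_of_nonneg_right (by linarith) (by positivity))
  · refine (hG' p a ha).trans (mul_le_mul_of_nonneg_right (by linarith) (by positivity))
  · refine (hC' p a ha).trans (mul_le_mul_of_nonneg_right (by linarith) (by positivity))
  · intro hlarge
    have h1 := hD' p a ha (by linarith)
    have h2 : {f ∈ ordinaryWeilPolys (p ^ a) 4 | Irreducible f ∧ IsExotic (p ^ a) f} =
        {f ∈ ordinaryWeilPolys (p ^ a) 4 | Irreducible f ∧ IsExotic (p ^ a) f ∧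
          HasExotic (p ^ a) f} := by
      ext f
      constructor
      · rintro ⟨h3, h4, h5⟩
        exact ⟨h3, h4, h5, h24 (p ^ a) hq f h3.1 h5⟩
      · rintro ⟨h3, h4, h5, _⟩
        exact ⟨h3, h4, h5⟩
    rw [h2] at h1
    refine h1.trans (mul_le_mul_of_nonneg_right (by linarith) (Nat.cast_nonneg _))
  · intro f hf hex
    have hL : ¬ ExL (p ^ a) f := fun h => hex (h18 (p ^ a) hq f hf.1.2.2.2 h)
    obtain ⟨g, hg⟩ := h13 f m hf.1.1 hm.1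
    refine ⟨g, hg, h15 (p ^ a) m hq hm f hf.1 hL g hg, ?_⟩
    exact h17 ((p ^ a) ^ m) g (Nat.one_lt_pow hm.1.ne' hq) (h16 (p ^ a) m hq hm f hf.1 hL g hg)
  · intro f hf hirr
    obtain ⟨x, rfl, hx⟩ := h30 (p ^ a) (by omega) f hf.1 hirr
    obtain ⟨g, hg⟩ := h13 _ m hf.1.1 hm.1
    have hQ : 1 < (p ^ a) ^ m := Nat.one_lt_pow hm.1.ne' hq
    have hR := h29 p a m ha hm hm4 x hf hx g hg
    exact ⟨g, hg, h27 _ g hQ hR, h28 _ g hQ hR, fun hex =>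
      h31 p a m ha hm hm4 x hf hx (h14 (p ^ a) hq _ hf.1 hex) g hg⟩

end Pool.Agent.H857.EF
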