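import Pool.Agent.H857.EF.Defs
import Pool.Agent.H857.PA.Main

/-!
# Abelian fourfolds with exotic Tate classes: auxiliary notions and the list of the statements
-/

set_option autoImplicit false

namespace Pool.Agent.H857.EF

open Module Polynomial Pool.Agent.W521.Descent Pool.Agent.W521.Density Pool.Agent.W521.Count
  Pool.Agent.X297.UB Pool.Agent.H857.PB Pool.Agent.H857.PA Pool.Agent.H857.HK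

/-- `y z = q`, up to a root of unity. -/
def PairRel (q : ℕ) (y z : ℂ) : Prop := ∃ N : ℕ, 0 < N ∧ (y * z) ^ N = (q : ℂ) ^ N

/-- The relation `∏ α i ^ (2 e i) = q ^ (∑ e i)`, up to a root of unity. -/
def RelZ {ι : Type} [Fintype ι] (q : ℕ) (α : ι → ℂ) (e : ι → ℤ) : Prop :=
  ∃ N : ℕ, 0 < N ∧ (∏ i, α i ^ (2 * e i)) ^ N = ((q : ℂ) ^ (∑ i, e i)) ^ N

/-- A nonempty list of roots of `f` whose product is an integral power of `q`, up to a root of unity,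
and in which the product of no two entries is `q`, up to a root of unity. -/
def ExL (q : ℕ) (f : ℤ[X]) : Prop :=
  ∃ L : List ℂ, L ≠ [] ∧ (∀ z ∈ L, aeval z f = 0) ∧
    (∃ N : ℕ, 0 < N ∧ ∃ n : ℤ, L.prod ^ N = (q : ℂ) ^ (n * N)) ∧
    L.Pairwise fun y z => ¬ PairRel q y z

/-- The list can be arranged in pairs with the relation `P`. -/
inductive Matched (P : ℂ → ℂ → Prop) : List ℂ → Prop
  | nil : Matched P []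
  | cons {a b : ℂ} {L L' : List ℂ} : P a b → Matched P L → L'.Perm (a :: b :: L) → Matched P L'

/-- The field of the algebraic numbers. -/
noncomputable abbrev QB := algebraicClosure ℚ ℂ

open Classical in
/-- The number of the entries of absolute value `c`. -/
noncomputable def cnt (l : Fin 4 → ℝ) (c : ℝ) : ℕ := (Finset.univ.filter fun i => |l i| = c).card

/-- The integrality of the Newton polygon with the slopes `1 / 2 + l i`, `1 / 2 - l i`. -/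
def IntPat (l : Fin 4 → ℝ) : Prop :=
  (∀ i, |l i| ≤ 1 / 2) ∧ ∀ c : ℝ, 0 < c → ∃ n : ℤ, (1 / 2 - c) * (cnt l c : ℝ) = n

/-- The vectors of the slopes (minus one half) of the `α i` with respect to all embeddings. -/
def slopes (p : ℕ) [Fact p.Prime] (a : ℕ) (α : Fin 4 → ℂ) : Set (Fin 4 → ℝ) :=
  {l | ∃ (β : Fin 4 → QB) (τ : QB →ₐ[ℚ] PadicAlgCl p), (∀ i, (β i : ℂ) = α i) ∧
    ∀ i, l i = slp p (τ (β i)) / a - 1 / 2}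

/-- Four roots, one in each pair, with the product `q ^ 2` up to a root of unity, and without
relations between two of them. -/
structure Quad (q : ℕ) (x : Fin 4 → ℤ) (β : Fin 4 → ℂ) : Prop where
  mem : ∀ i, β i = labA q 4 x i ∨ β i = labB q 4 x i
  inj : Function.Injective β
  prod : ∃ N : ℕ, 0 < N ∧ (∏ i, β i) ^ N = ((q : ℂ) ^ 2) ^ N
  pair : ∀ i j, ¬ PairRel q (β i) (β j)

/-- The polynomial `X ^ 4 - u X ^ 3 + v X ^ 2 - ζ q ū X + ζ q ^ 2`. -/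
noncomputable def quartic (q : ℕ) (u v ζ : ℂ) : ℂ[X] :=
  X ^ 4 - C u * X ^ 3 + C v * X ^ 2 - C (ζ * q * (starRingEnd ℂ) u) * X + C (ζ * (q : ℂ) ^ 2)

/-- The data of a Weil polynomial of degree eight with an exotic relation. -/
structure Data (q : ℕ) (f : ℤ[X]) (U V : QB) (ζ : ℂ) : Prop where
  eq : f.map (Int.castRingHom ℂ) =
    quartic q U V ζ * (quartic q U V ζ).map (starRingEnd ℂ)
  intU : IsIntegral ℤ U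
  intV : IsIntegral ℤ V
  gal : ∀ σ : QB ≃ₐ[ℚ] QB, (σ U = U ∧ σ V = V) ∨
    ((σ U : ℂ) = (starRingEnd ℂ) (U : ℂ) ∧ (σ V : ℂ) = (starRingEnd ℂ) (V : ℂ))
  le_U : ‖(U : ℂ)‖ ≤ 4 * Real.sqrt q
  le_V : ‖(V : ℂ)‖ ≤ 6 * q
  line : (V : ℂ) = ζ * (starRingEnd ℂ) (V : ℂ)
  zeta : ζ ∈ rou 2

/-- The coefficients of `h`, where `x ^ 4 h (x + q / x)` is the product of
`x ^ 4 - e x ^ 3 + t x ^ 2 - q ē x + q ^ 2` and its conjugate, `e + ē = A`, `e ē = n`. -/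
def cf (q : ℕ) (A n t : ℤ) : Fin 4 → ℤ :=
  ![(t - 2 * q) ^ 2 + q * (A ^ 2 - 4 * n), -(A * (t - 2 * q)), 2 * (t - 2 * q) + n, -A]

/-- The quartic factor. -/
noncomputable def half (q : ℕ) (e : ℂ) (t : ℂ) : ℂ[X] :=
  X ^ 4 - C e * X ^ 3 + C t * X ^ 2 - C (q * (starRingEnd ℂ) e) * X + C ((q : ℂ) ^ 2)

/-- The quartic factor has the roots `z i`. -/
structure IsHalf (q : ℕ) (A n t : ℤ) (e : ℂ) (z : Fin 4 → ℂ) : Prop where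
  add : e + (starRingEnd ℂ) e = A
  mul : e * (starRingEnd ℂ) e = n
  norm : ∀ i, ‖z i‖ ^ 2 = q
  eq : ∏ i, (X - C (z i)) = half q e t
  root : ∀ i, aeval (z i) (wp q 4 (cf q A n t)) = 0

/-- The conditions for the parameters. -/
def Par (q : ℕ) (A n t : ℤ) : Prop :=
  1 ≤ A ∧ 64 * A ^ 2 ≤ q ∧ (q : ℤ) < 32 * n ∧ 16 * n ≤ q ∧ 1 ≤ t ∧ 2 * t ≤ q

/-! ### The statements -/

/-- S1. -/
def S1 : Prop := ∀ Λ : Set (Fin 4 → ℝ), Λ.Nonempty → (∀ l ∈ Λ, IntPat l) →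
  (∀ l ∈ Λ, ∀ l' ∈ Λ, ∀ c : ℝ, cnt l c = cnt l' c) →
  (∀ i j, ∀ l ∈ Λ, ∃ l' ∈ Λ, |l' j| = |l i|) →
  ∀ e : Fin 4 → ℤ, (∃ i, e i ≠ 0) → (∀ l ∈ Λ, ∑ i, (e i : ℝ) * l i = 0) → Even (∑ i, e i) →
  (∀ i j, i ≠ j → e i ≠ 0 → e j ≠ 0 →
    ∃ l ∈ Λ, ((e i).sign : ℝ) * l i + ((e j).sign : ℝ) * l j ≠ 0) →
  (∀ i, 2 ≤ |e i| → ∃ l ∈ Λ, l i ≠ 0) →
  (∀ i, e i ≠ 0) ∧ (∀ i j, |e i| = |e j|) ∧ ∀ i, ∃ l ∈ Λ, l i ≠ 0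

/-- S2a. -/
def S2a : Prop := ∀ (p : ℕ) [Fact p.Prime] (a : ℕ), 0 < a → ∀ x : Fin 4 → ℤ,
  wp (p ^ a) 4 x ∈ newtonWeil p a 4 →
  (slopes p a (labA (p ^ a) 4 x)).Nonempty ∧
  (∀ l ∈ slopes p a (labA (p ^ a) 4 x), IntPat l) ∧
  (∀ l ∈ slopes p a (labA (p ^ a) 4 x), ∀ l' ∈ slopes p a (labA (p ^ a) 4 x),
    ∀ c : ℝ, cnt l c = cnt l' c) ∧
  ∀ e : Fin 4 → ℤ, RelZ (p ^ a) (labA (p ^ a) 4 x) e ↔
    ∀ l ∈ slopes p a (labA (p ^ a) 4 x), ∑ i, (e i : ℝ) * l i = 0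

/-- S2b. -/
def S2b : Prop := ∀ (p : ℕ) [Fact p.Prime] (a : ℕ), 0 < a → ∀ x : Fin 4 → ℤ,
  wp (p ^ a) 4 x ∈ newtonWeil p a 4 → Irreducible (mkPoly 4 x) →
  Function.Injective (fun i => labA (p ^ a) 4 x i + labB (p ^ a) 4 x i) ∧
  ∀ i j, ∀ l ∈ slopes p a (labA (p ^ a) 4 x), ∃ l' ∈ slopes p a (labA (p ^ a) 4 x),
    |l' j| = |l i|

/-- S3. -/
def S3 : Prop := ∀ (ι : Type) [Fintype ι] [DecidableEq ι] (q : ℕ), 1 < q → ∀ α : ι → ℂ,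
  (∀ i, ‖α i‖ ^ 2 = q) → ∀ L : List ℂ, L ≠ [] → (∀ z ∈ L, ∃ i, z = α i ∨ z = q / α i) →
  (∃ N : ℕ, 0 < N ∧ ∃ n : ℤ, L.prod ^ N = (q : ℂ) ^ (n * N)) →
  (L.Pairwise fun y z => ¬ PairRel q y z) →
  ∃ e : ι → ℤ, (∃ i, e i ≠ 0) ∧ RelZ q α e ∧ Even (∑ i, e i) ∧
    (∀ i j, i ≠ j → e i ≠ 0 → e j ≠ 0 →
      ¬ RelZ q α (Pi.single i (e i).sign + Pi.single j (e j).sign)) ∧
    ∀ i, 2 ≤ |e i| → ¬ RelZ q α (Pi.single i 1)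

/-- S4. -/
def S4 : Prop := ∀ (p : ℕ) [Fact p.Prime] (a : ℕ), 0 < a → ∀ x : Fin 4 → ℤ,
  wp (p ^ a) 4 x ∈ newtonWeil p a 4 → Irreducible (mkPoly 4 x) →
  ExL (p ^ a) (wp (p ^ a) 4 x) → ∃ β : Fin 4 → ℂ, Quad (p ^ a) x β

/-- S5a. -/
def S5a : Prop := ∀ q : ℕ, 0 < q → ∀ β : Fin 4 → QB, Function.Injective β →
  (∃ N : ℕ, 0 < N ∧ (∏ i, (β i : ℂ)) ^ N = ((q : ℂ) ^ 2) ^ N) →
  (∀ i j, ¬ PairRel q (β i) (β j)) →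
  ∀ σ : QB ≃ₐ[ℚ] QB, (∀ i, ∃ j, σ (β i) = β j ∨ σ (β i) = q / β j) →
    (∃ π : Equiv.Perm (Fin 4), ∀ i, σ (β i) = β (π i)) ∨
    (∃ π : Equiv.Perm (Fin 4), ∀ i, σ (β i) = q / β (π i))

/-- S5b. -/
def S5b : Prop := ∀ q : ℕ, 0 < q → ∀ (x : Fin 4 → ℤ) (β : Fin 4 → ℂ),
  wp q 4 x ∈ weilPolys q 4 → Quad q x β → ∃ (U V : QB) (ζ : ℂ), Data q (wp q 4 x) U V ζ

/-- S6a. -/
def S6a : Prop := (∀ (q : ℕ) (f : ℤ[X]) (U V : QB) (ζ : ℂ), Data q f U V ζ →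
    (∃ n : ℤ, (U : ℂ) + (starRingEnd ℂ) (U : ℂ) = n) ∧ (∃ n : ℤ, ‖(U : ℂ)‖ ^ 2 = n) ∧
      ∃ n : ℤ, ‖(V : ℂ)‖ ^ 2 = n) ∧
  ∀ (q : ℕ) (f f' : ℤ[X]) (U V V' : QB) (ζ ζ' : ℂ), Data q f U V ζ → Data q f' U V' ζ' →
    (starRingEnd ℂ) (U : ℂ) ≠ U → ∃ n : ℤ, ‖(V : ℂ) - V'‖ ^ 2 = n

/-- S6b. -/
def S6b : Prop := ∃ C : ℝ, 0 < C ∧ ∀ q : ℕ, 0 < q →
  {f : ℤ[X] | ∃ (U V : QB) (ζ : ℂ), Data q f U V ζ}.Finite ∧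
  ({f : ℤ[X] | ∃ (U V : QB) (ζ : ℂ), Data q f U V ζ}.ncard : ℝ) ≤ C * Real.sqrt q ^ 5

/-- S7. -/
def S7 : Prop := ∀ (g : ℕ), 0 < g → ∀ (κ : Type) [Fintype κ] (D : ℕ), 0 < D →
  ∃ C : ℝ, 0 < C ∧ ∀ (p : ℕ) [Fact p.Prime] (a : ℕ), 0 < a → ∀ ρ : κ → ℂ,
    (∀ k, IsWeilNum p a D 1 (ρ k)) →
    ({y : Fin g → ℤ | wp (p ^ a) g y ∈ weilPolys (p ^ a) g ∧
      (∀ z : ℂ, aeval z (wp (p ^ a) g y) = 0 → IsWeilNum p a D 1 z) ∧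
      ∃ (e : Fin g → ℤ) (e' : κ → ℤ), (∃ j, e j ≠ 0) ∧
        RelZ (p ^ a) (Sum.elim (labA (p ^ a) g y) ρ) (Sum.elim e e')}.ncard : ℝ) ≤
      C * Real.sqrt ((p : ℝ) ^ a) ^ expo g

/-- S8. -/
def S8 : Prop := ∀ q : ℕ, 0 < q → ∀ x : Fin 4 → ℤ, wp q 4 x ∈ weilPolys q 4 →
  ¬ Irreducible (mkPoly 4 x) →
  (∃ (y : Fin 1 → ℤ) (z : Fin 3 → ℤ), wp q 4 x = wp q 1 y * wp q 3 z ∧
    wp q 1 y ∈ weilPolys q 1 ∧ wp q 3 z ∈ weilPolys q 3) ∨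
  ∃ (y z : Fin 2 → ℤ), wp q 4 x = wp q 2 y * wp q 2 z ∧
    wp q 2 y ∈ weilPolys q 2 ∧ wp q 2 z ∈ weilPolys q 2

/-- S9. -/
def S9 : Prop := ∃ C : ℝ, 0 < C ∧ ∀ (p : ℕ) [Fact p.Prime] (a : ℕ), 0 < a →
  ({f ∈ newtonWeil p a 4 | (∃ x : Fin 4 → ℤ, f = wp (p ^ a) 4 x ∧ ¬ Irreducible (mkPoly 4 x)) ∧
    ExL (p ^ a) f}.ncard : ℝ) ≤ C * Real.sqrt ((p : ℝ) ^ a) ^ 5

/-- S10. -/
def S10 : Prop := ∀ (V : Type) [AddCommGroup V] [Module ℂ V] [FiniteDimensional ℂ V]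
  (F : V →ₗ[ℂ] V) (E : Set ℂ),
  Submodule.span ℂ {v : V | ∃ μ : ℂ, μ ∈ E ∧ F v = μ • v} = ⊤ → ∀ (Q : ℂ) (n s : ℕ),
  (∀ L : List ℂ, (∀ z ∈ L, z ∈ E) → L.length = 2 * n → L.prod ^ s = (Q ^ n) ^ s →
    Matched (fun y z => y * z = Q) L) →
  ∀ x : ExteriorAlgebra ℂ V, x ∈ ⋀[ℂ]^(2 * n) V →
    ExteriorAlgebra.map (F ^ s) x = (Q ^ n) ^ s • x → x ∈ divisorProducts Q F n

/-- S11. -/
def S11 : Prop := ∀ (q : ℕ) (f : ℤ[X]), 1 < q → (∀ z : ℂ, aeval z f = 0 → ‖z‖ ^ 2 = q) →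
  ¬ ExL q f → ∀ L : List ℂ, (∀ z ∈ L, aeval z f = 0) →
  (∃ N : ℕ, 0 < N ∧ ∃ n : ℤ, L.prod ^ N = (q : ℂ) ^ (n * N)) → Matched (PairRel q) L

/-- The conclusion of S12: `m` is an exponent for the roots of unity `y z / q`. -/
def KillsPairs (m : ℕ) : Prop := 0 < m ∧ ∀ (q : ℕ), 0 < q → ∀ f ∈ weilPolys q 4, ∀ y z : ℂ,
  aeval y f = 0 → aeval z f = 0 → PairRel q y z → (y * z) ^ m = (q : ℂ) ^ m

/-- S12. -/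
def S12 : Prop := ∃ m : ℕ, KillsPairs m

/-- S13. -/
def S13 : Prop := ∀ (f : ℤ[X]) (m : ℕ), f.Monic → 0 < m → ∃ g : ℤ[X], IsPowerPoly f m g

/-- S14. -/
def S14 : Prop := ∀ q : ℕ, 1 < q → ∀ f ∈ weilPolys q 4, HasExotic q f → ExL q f

/-- S15. -/
def S15 : Prop := ∀ (q m : ℕ), 1 < q → KillsPairs m → ∀ f ∈ weilPolys q 4, ¬ ExL q f →
  ∀ g : ℤ[X], IsPowerPoly f m g → PolesOfPowers (q ^ m) g

/-- S16. -/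
def S16 : Prop := ∀ (q m : ℕ), 1 < q → KillsPairs m → ∀ f ∈ weilPolys q 4, ¬ ExL q f →
  ∀ g : ℤ[X], IsPowerPoly f m g →
    Pool.Agent.Y1.CT.NoRel (fun _ : Unit => g) (q ^ m) (fun z => z = 1)

/-- S17. -/
def S17 : Prop := ∀ (Q : ℕ) (g : ℤ[X]), 1 < Q →
  Pool.Agent.Y1.CT.NoRel (fun _ : Unit => g) Q (fun z => z = 1) → TateForPowers Q g

/-- S18. -/
def S18 : Prop := ∀ q : ℕ, 1 < q → ∀ f : ℤ[X], (∀ z : ℂ, aeval z f = 0 → ‖z‖ ^ 2 = q) →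
  ExL q f → HasExotic q f

/-- S19. -/
def S19 : Prop := ∀ (q : ℕ) (f : ℤ[X]) (z : Fin 4 → ℂ), 0 < q → Function.Injective z →
  (∀ i, aeval (z i) f = 0) → ∏ i, z i = (q : ℂ) ^ 2 → (∀ i j, i ≠ j → ¬ PairRel q (z i) (z j)) →
  IsExotic q f

/-- S20a. -/
def S20a : Prop := ∀ (q : ℕ) (A n t : ℤ) (e : ℂ), 0 < q → e + (starRingEnd ℂ) e = A →
  e * (starRingEnd ℂ) e = n →
  (wp q 4 (cf q A n t)).map (Int.castRingHom ℂ) =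
    half q e t * (half q e t).map (starRingEnd ℂ)

/-- S20b. -/
def S20b : Prop := ∀ (q : ℕ) (e : ℂ) (t : ℝ), 0 < q → 16 * ‖e‖ ^ 2 ≤ q → 0 ≤ t → 2 * t ≤ q →
  ∃ z : Fin 4 → ℂ, Function.Injective z ∧ (∀ i, ‖z i‖ ^ 2 = q) ∧
    ∏ i, (X - C (z i)) = half q e (t : ℂ)

/-- S20. -/
def S20 : Prop := ∀ (q : ℕ) (A n t : ℤ), 0 < q → Par q A n t →
  wp q 4 (cf q A n t) ∈ weilPolys q 4 ∧ ∃ (e : ℂ) (z : Fin 4 → ℂ),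
    IsHalf q A n t e z ∧ Function.Injective z

/-- S21a. -/
def S21a : Prop := ∀ (q : ℕ) (A n t : ℤ) (e : ℂ) (z : Fin 4 → ℂ) (i j : Fin 4), 0 < q →
  IsHalf q A n t e z → i ≠ j → PairRel q (z i) (z j) →
  ∃ ζ : ℂ, ζ ∈ rou 64 ∧ (A : ℝ) ^ 2 =
    2 * (1 + ζ.re) * (n + 2 * (1 - ζ.re) * (t - 2 * q * ζ.re))

/-- S21b. -/
def S21b : Prop := ∃ C : ℝ, 0 < C ∧ ∀ q : ℕ, 0 < q →
  ({x : ℤ × ℤ × ℤ | Par q x.1 x.2.1 x.2.2 ∧ ∃ ζ : ℂ, ζ ∈ rou 64 ∧ (x.1 : ℝ) ^ 2 =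
    2 * (1 + ζ.re) * (x.2.1 + 2 * (1 - ζ.re) * (x.2.2 - 2 * q * ζ.re))}.ncard : ℝ) ≤
    C * Real.sqrt q ^ 3

/-- S22. -/
def S22 : Prop := ∃ C : ℝ, 0 < C ∧ ∀ (p : ℕ) [Fact p.Prime] (a : ℕ), 0 < a →
  C < (p : ℝ) ^ a → Real.sqrt ((p : ℝ) ^ a) ^ 5 ≤
    C * ({f ∈ newtonWeil p a 4 | IsExotic (p ^ a) f}.ncard : ℝ)

/-- S23. -/
def S23 : Prop := ∃ C : ℝ, 0 < C ∧ ∀ (p : ℕ) [Fact p.Prime] (a : ℕ), 0 < a →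
  (newtonWeil p a 4).Finite ∧
  Real.sqrt ((p : ℝ) ^ a) ^ 10 ≤ C * ((newtonWeil p a 4).ncard : ℝ) ∧
  ((newtonWeil p a 4).ncard : ℝ) ≤ C * Real.sqrt ((p : ℝ) ^ a) ^ 10

/-- S24. -/
def S24 : Prop := ∀ (q : ℕ), 1 < q → ∀ f ∈ weilPolys q 4, IsExotic q f → HasExotic q f

end Pool.Agent.H857.EF
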