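import Pool.Agent.H857.EF.Defs

/-!
# Tate classes on the powers of simple abelian fourfolds: definitions
-/

set_option autoImplicit false

open CategoryTheory AlgebraicGeometry

namespace Pool.Agent.H857.EF

open Module Polynomial Pool.Agent.H914 Pool.Agent.H914.VarClass Pool.Agent.H914.VarClass.Obj
  Pool.Agent.W492.BB Pool.Agent.W484.CK Pool.Agent.Q70.CT Pool.Agent.H857.HK

/-- All Tate classes on the powers of `A`, over all extensions of the field with `Q` elements, are
polynomials in the Tate classes of codimension one and two over the field with `Q` elements: for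
every finite dimensional complex vector space `V`, spanned by eigenvectors of the endomorphism `F`
with eigenvalues among the roots of `g`, every `x` in `⋀ ^ (2 i) V` with `F ^ s x = (Q ^ s) ^ i x`,
`s > 0`, lies in the algebra generated by the `y` in `⋀ ^ 2 V` with `F y = Q y` and the `y` in
`⋀ ^ 4 V` with `F y = Q ^ 2 y`. -/
def GeneratedInCodimTwo (Q : ℕ) (g : ℤ[X]) : Prop :=
  ∀ (V : Type) [AddCommGroup V] [Module ℂ V] [FiniteDimensional ℂ V] (F : V →ₗ[ℂ] V),
    Submodule.span ℂ {v : V | ∃ z : ℂ, aeval z g = 0 ∧ F v = z • v} = ⊤ →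
    ∀ (i s : ℕ) (x : ExteriorAlgebra ℂ V), 0 < s → x ∈ ⋀[ℂ]^(2 * i) V →
      ExteriorAlgebra.map (F ^ s) x = ((Q : ℂ) ^ i) ^ s • x →
      x ∈ Algebra.adjoin ℂ {y : ExteriorAlgebra ℂ V |
        (y ∈ ⋀[ℂ]^2 V ∧ ExteriorAlgebra.map F y = (Q : ℂ) • y) ∨
        (y ∈ ⋀[ℂ]^4 V ∧ ExteriorAlgebra.map F y = (Q : ℂ) ^ 2 • y)}

/-- The conjecture of Tate for the powers of `A` in all codimensions follows from the conjecture in
codimension two. For all classes `𝒱` of varieties over fields `k` (finite, in the intended use) and
their Chow groups `C` with rational coefficients, every Weil cohomology theory `H` with coefficients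
in an algebraically closed field `K` of characteristic zero, all `s > 0` and all abelian varieties
`B` in the class, over the field with `Q ^ s` elements, with Frobenius endomorphism `π`, which come,
up to isogeny, from abelian varieties over the field with `Q` elements whose Frobenius eigenvalues
are roots of `g`: if the Tate classes in `H ^ 4 (B)` are linear combinations of classes of cycles of
codimension two, then for every `c` the order of the pole of the zeta function of `B` at `s = c` is
the rank of the group of the cycles of codimension `c` on `B` modulo numerical equivalence. -/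
def TateFromCodimTwo (Q : ℕ) (g : ℤ[X]) : Prop :=
  ∀ (k : Type) [Field k] (𝒱 : VarClass k) (C : TheoryData.{0, 0, 0} 𝒱 ℚ) [IsChow C]
    (K : Type) [Field K] [IsAlgClosed K] [CharZero K] (H : WeilTheoryData.{0, 0, 0} C K)
    [IsWeil H] (s : ℕ) (B : 𝒱.Obj) (π : B ⟶ B), 0 < s → Pool.Agent.W484.CK.IsStandard H →
      Pool.Agent.W484.CK.IsAbelian H π Q s (fun _ : Unit => g) →
      (∀ y : H.A B, H.Deg 4 y → H.up π y = ((Q ^ s : ℕ) : K) ^ 2 • y →
        InSpan H (fun y : H.A B => ∃ D : C.A B, C.Deg 2 D ∧ y = H.cl D) y) →
      ∀ c : ℕ, PoleFormula H π (Q ^ s) c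

end Pool.Agent.H857.EF
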