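import Pool.Agent.H857.EF.Core
import Pool.Agent.H857.EF.Defs2

/-!
# Tate classes on the powers of simple abelian fourfolds: the list of the statements
-/

set_option autoImplicit false

namespace Pool.Agent.H857.EF

open Module Polynomial Pool.Agent.W521.Descent Pool.Agent.W521.Density Pool.Agent.W521.Count
  Pool.Agent.X297.UB Pool.Agent.H857.PB Pool.Agent.H857.PA Pool.Agent.H857.HK

/-- `a b c d = q ^ 2`, up to a root of unity. -/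
def QuadRel (q : ℕ) (a b c d : ℂ) : Prop := ∃ N : ℕ, 0 < N ∧ (a * b * c * d) ^ N = ((q : ℂ) ^ 2) ^ N

/-- The list can be arranged in pairs with the relation `P` and quadruples with the relation `R`. -/
inductive Matched4 (P : ℂ → ℂ → Prop) (R : ℂ → ℂ → ℂ → ℂ → Prop) : List ℂ → Prop
  | nil : Matched4 P R []
  | pair {a b : ℂ} {L L' : List ℂ} : P a b → Matched4 P R L → L'.Perm (a :: b :: L) →
      Matched4 P R L'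
  | quad {a b c d : ℂ} {L L' : List ℂ} : R a b c d → Matched4 P R L →
      L'.Perm (a :: b :: c :: d :: L) → Matched4 P R L'

/-- The roots of `g` have no relations with `Q` but those generated by relations between two and
four roots. -/
structure NoRel4 (g : ℤ[X]) (Q : ℕ) : Prop where
  monic : g.Monic
  matched : ∀ s : ℕ, 0 < s → ∀ L : List ℂ, (∀ z ∈ L, aeval z g = 0) →
    ∀ (c : ℤ) (N : ℕ), 0 < N → ((L.map (· ^ s)).prod) ^ N = (((Q : ℂ) ^ s) ^ c) ^ N →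
      Matched4 (fun y z => y * z = Q) (fun a b c d => a * b * c * d = (Q : ℂ) ^ 2) L

/-- `m` is an exponent for the roots of unity `a b c d / q ^ 2`. -/
def KillsQuads (m : ℕ) : Prop := 0 < m ∧ ∀ (q : ℕ), 0 < q → ∀ f ∈ weilPolys q 4, ∀ a b c d : ℂ,
  aeval a f = 0 → aeval b f = 0 → aeval c f = 0 → aeval d f = 0 → QuadRel q a b c d →
    (a * b * c * d) ^ m = ((q : ℂ) ^ 2) ^ m

/-- S1m: S1 with one more conclusion. -/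
def S1m : Prop := ∀ Λ : Set (Fin 4 → ℝ), Λ.Nonempty → (∀ l ∈ Λ, IntPat l) →
  (∀ l ∈ Λ, ∀ l' ∈ Λ, ∀ c : ℝ, cnt l c = cnt l' c) →
  (∀ i j, ∀ l ∈ Λ, ∃ l' ∈ Λ, |l' j| = |l i|) →
  ∀ e : Fin 4 → ℤ, (∃ i, e i ≠ 0) → (∀ l ∈ Λ, ∑ i, (e i : ℝ) * l i = 0) → Even (∑ i, e i) →
  (∀ i j, i ≠ j → e i ≠ 0 → e j ≠ 0 →
    ∃ l ∈ Λ, ((e i).sign : ℝ) * l i + ((e j).sign : ℝ) * l j ≠ 0) →
  (∀ i, 2 ≤ |e i| → ∃ l ∈ Λ, l i ≠ 0) →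
  (∀ i, e i ≠ 0) ∧ (∀ i j, |e i| = |e j|) ∧ (∀ i, ∃ l ∈ Λ, l i ≠ 0) ∧
    ∀ i j, i ≠ j → ∃ l ∈ Λ, ((e i).sign : ℝ) * l i ≠ ((e j).sign : ℝ) * l j

/-- S3m: S3 with one more conclusion. -/
def S3m : Prop := ∀ (ι : Type) [Fintype ι] [DecidableEq ι] (q : ℕ), 1 < q → ∀ α : ι → ℂ,
  (∀ i, ‖α i‖ ^ 2 = q) → ∀ L : List ℂ, L ≠ [] → (∀ z ∈ L, ∃ i, z = α i ∨ z = q / α i) →
  (∃ N : ℕ, 0 < N ∧ ∃ n : ℤ, L.prod ^ N = (q : ℂ) ^ (n * N)) →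
  (L.Pairwise fun y z => ¬ PairRel q y z) →
  ∃ e : ι → ℤ, (∃ i, e i ≠ 0) ∧ RelZ q α e ∧ Even (∑ i, e i) ∧
    (∀ i j, i ≠ j → e i ≠ 0 → e j ≠ 0 →
      ¬ RelZ q α (Pi.single i (e i).sign + Pi.single j (e j).sign)) ∧
    (∀ i, 2 ≤ |e i| → ¬ RelZ q α (Pi.single i 1)) ∧
    ∀ i, e i ≠ 0 → (if 0 < e i then α i else (q : ℂ) / α i) ∈ L

/-- S4m. -/
def S4m : Prop := ∀ (p : ℕ) [Fact p.Prime] (a : ℕ), 0 < a → ∀ x : Fin 4 → ℤ,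
  wp (p ^ a) 4 x ∈ newtonWeil p a 4 → Irreducible (mkPoly 4 x) →
  ∀ L : List ℂ, L ≠ [] → (∀ z ∈ L, aeval z (wp (p ^ a) 4 x) = 0) →
  (∃ N : ℕ, 0 < N ∧ ∃ n : ℤ, L.prod ^ N = ((p ^ a : ℕ) : ℂ) ^ (n * N)) →
  (L.Pairwise fun y z => ¬ PairRel (p ^ a) y z) →
  ∃ β : Fin 4 → ℂ, Quad (p ^ a) x β ∧ (∀ i, β i ∈ L) ∧
    ∀ i j, i ≠ j → ∀ N : ℕ, 0 < N → β i ^ N ≠ β j ^ N

/-- S25. -/
def S25 : Prop := ∀ (p : ℕ) [Fact p.Prime] (a : ℕ), 0 < a → ∀ x : Fin 4 → ℤ,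
  wp (p ^ a) 4 x ∈ newtonWeil p a 4 → Irreducible (mkPoly 4 x) →
  ∀ L : List ℂ, (∀ z ∈ L, aeval z (wp (p ^ a) 4 x) = 0) →
  (∃ N : ℕ, 0 < N ∧ ∃ n : ℤ, L.prod ^ N = ((p ^ a : ℕ) : ℂ) ^ (n * N)) →
  Matched4 (PairRel (p ^ a)) (QuadRel (p ^ a)) L

/-- S26. -/
def S26 : Prop := ∃ m : ℕ, KillsPairs m ∧ KillsQuads m

/-- S27. -/
def S27 : Prop := ∀ (Q : ℕ) (g : ℤ[X]), 1 < Q → NoRel4 g Q → GeneratedInCodimTwo Q g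

/-- S28. -/
def S28 : Prop := ∀ (Q : ℕ) (g : ℤ[X]), 1 < Q → NoRel4 g Q → TateFromCodimTwo Q g

/-- S29. -/
def S29 : Prop := ∀ (p : ℕ) [Fact p.Prime] (a m : ℕ), 0 < a → KillsPairs m → KillsQuads m →
  ∀ x : Fin 4 → ℤ, wp (p ^ a) 4 x ∈ newtonWeil p a 4 → Irreducible (mkPoly 4 x) →
  ∀ g : ℤ[X], IsPowerPoly (wp (p ^ a) 4 x) m g → NoRel4 g ((p ^ a) ^ m)

/-- S30. -/
def S30 : Prop := ∀ q : ℕ, 0 < q → ∀ f ∈ weilPolys q 4, Irreducible f →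
  ∃ x : Fin 4 → ℤ, f = wp q 4 x ∧ Irreducible (mkPoly 4 x)

/-- S31. -/
def S31 : Prop := ∀ (p : ℕ) [Fact p.Prime] (a m : ℕ), 0 < a → KillsPairs m → KillsQuads m →
  ∀ x : Fin 4 → ℤ, wp (p ^ a) 4 x ∈ newtonWeil p a 4 → Irreducible (mkPoly 4 x) →
  ExL (p ^ a) (wp (p ^ a) 4 x) →
  ∀ g : ℤ[X], IsPowerPoly (wp (p ^ a) 4 x) m g → IsExotic ((p ^ a) ^ m) g

/-- S22o: S22 with ordinary Weil polynomials. -/
def S22o : Prop := ∃ C : ℝ, 0 < C ∧ ∀ (p : ℕ) [Fact p.Prime] (a : ℕ), 0 < a →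
  C < (p : ℝ) ^ a → Real.sqrt ((p : ℝ) ^ a) ^ 5 ≤
    C * ({f ∈ ordinaryWeilPolys (p ^ a) 4 | IsExotic (p ^ a) f}.ncard : ℝ)

end Pool.Agent.H857.EF
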