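import Pool.Agent.H857.SX.PairDefs
import Pool.Agent.H857.HK.ZDefs
import Pool.Graph.R_seed8.W521.Formula

/-!
# Abelian fourfolds with exotic Tate classes: definitions
-/

set_option autoImplicit false

open CategoryTheory AlgebraicGeometry

namespace Pool.Agent.H857.EF

open Module Polynomial Pool.Agent.H914 Pool.Agent.H914.VarClass Pool.Agent.H914.VarClass.Obj
  Pool.Agent.W492.BB Pool.Agent.W484.CK Pool.Agent.Q70.CT Pool.Agent.H857.HK

/-- There are exotic Tate classes on a power of `A`, where `f` is the characteristic polynomial of
the Frobenius endomorphism of the abelian variety `A` over the field with `q` elements: for some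
finite dimensional complex vector space `V` with an endomorphism `F`, spanned by eigenvectors with
eigenvalues among the roots of `f` (the space `H ^ 1 (A ^ k)`, or a subspace of it), there is a class
`x` in `⋀ ^ (2 i) V` which is a Tate class over the field with `q ^ s` elements, that is,
`F ^ s x = (q ^ s) ^ i x`, and which over no extension of this field is a linear combination of
products of `i` divisor classes. -/
def HasExotic (q : ℕ) (f : ℤ[X]) : Prop :=
  ∃ (V : Type) (_ : AddCommGroup V) (_ : Module ℂ V) (_ : FiniteDimensional ℂ V)
    (F : V →ₗ[ℂ] V),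
    Submodule.span ℂ {v : V | ∃ z : ℂ, aeval z f = 0 ∧ F v = z • v} = ⊤ ∧
    ∃ (i s : ℕ) (x : ExteriorAlgebra ℂ V), 0 < s ∧ x ∈ ⋀[ℂ]^(2 * i) V ∧
      ExteriorAlgebra.map (F ^ s) x = ((q : ℂ) ^ i) ^ s • x ∧
      ∀ t : ℕ, 0 < t → x ∉ divisorProducts ((q : ℂ) ^ (s * t)) (F ^ (s * t)) i

/-- There are exotic Tate classes of codimension two on `A` itself, over the field with `q`
elements: for every finite dimensional complex vector space `V` with a diagonalizable
endomorphism `F` with the characteristic polynomial `f` (the space `H ^ 1 (A)`) there is a class `x`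
in `⋀ ^ 4 V` with `F x = q ^ 2 x`, which over no extension of the field with `q` elements is a linear
combination of products of two divisor classes. -/
def IsExotic (q : ℕ) (f : ℤ[X]) : Prop :=
  ∀ (V : Type) [AddCommGroup V] [Module ℂ V] [FiniteDimensional ℂ V] (F : V →ₗ[ℂ] V),
    Submodule.span ℂ {v : V | ∃ z : ℂ, F v = z • v} = ⊤ →
    F.charpoly = f.map (Int.castRingHom ℂ) →
    ∃ x : ExteriorAlgebra ℂ V, x ∈ ⋀[ℂ]^4 V ∧ ExteriorAlgebra.map F x = (q : ℂ) ^ 2 • x ∧
      ∀ t : ℕ, 0 < t → x ∉ divisorProducts ((q : ℂ) ^ t) (F ^ t) 2

/-- `g` is the monic polynomial whose complex roots are the powers `z ^ m` of the roots `z` of `f`,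
with multiplicities: if `f` is the characteristic polynomial of the Frobenius endomorphism of `A` over
the field with `q` elements, then `g` is the one for the field with `q ^ m` elements. -/
def IsPowerPoly (f : ℤ[X]) (m : ℕ) (g : ℤ[X]) : Prop :=
  g.Monic ∧ (g.map (Int.castRingHom ℂ)).roots = (f.map (Int.castRingHom ℂ)).roots.map (· ^ m)

/-- The formula for the poles of the zeta functions of the powers of `A`, of all abelian varieties
isogenous to them, over all extensions of the field with `Q` elements. For every finite dimensional
complex vector space `V`, spanned by eigenvectors of the endomorphism `F` with eigenvalues among the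
roots of `g`, for all `s > 0` and `n`: the order at `n` of
`∏ det (1 - (Q ^ s) ^ (-u) F ^ s | ⋀ ^ j V) ^ ((-1) ^ (j + 1))`, as a function of `u`, is the opposite
of the dimension of the span of the products of `n` elements `y` of `⋀ ^ 2 V` with `F y = Q y`. -/
def PolesOfPowers (Q : ℕ) (g : ℤ[X]) : Prop :=
  Pool.Agent.W521.Formula.PoleFormula Q (fun _ : Unit => g)

/-- The conjecture of Tate for the powers of `A`: for all classes `𝒱` of varieties over fields `k`
(finite, in the intended use) and their Chow groups `C` with rational coefficients, every Weil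
cohomology theory `H` with coefficients in an algebraically closed field `K` of characteristic zero,
all `s > 0` and all abelian varieties `B` in the class, over the field with `Q ^ s` elements, with
Frobenius endomorphism `π`, which come, up to isogeny, from abelian varieties over the field with `Q`
elements whose Frobenius eigenvalues are roots of `g`: for every `c` the order of the pole of the
zeta function of `B` at `s = c` is the rank of the group of the cycles of codimension `c` on `B`
modulo numerical equivalence. -/
def TateForPowers (Q : ℕ) (g : ℤ[X]) : Prop :=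
  ∀ (k : Type) [Field k] (𝒱 : VarClass k) (C : TheoryData.{0, 0, 0} 𝒱 ℚ) [IsChow C]
    (K : Type) [Field K] [IsAlgClosed K] [CharZero K] (H : WeilTheoryData.{0, 0, 0} C K)
    [IsWeil H] (s : ℕ) (B : 𝒱.Obj) (π : B ⟶ B), 0 < s → Pool.Agent.W484.CK.IsStandard H →
      Pool.Agent.W484.CK.IsAbelian H π Q s (fun _ : Unit => g) →
      ∀ c : ℕ, PoleFormula H π (Q ^ s) c

end Pool.Agent.H857.EF
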