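import Pool.Agent.H857.EF.Defs

/-!
# Exotic Tate classes
-/

set_option autoImplicit false

namespace Pool.Agent.H857.EF

open Module Polynomial Pool.Agent.H857.HK

/-- The space `V` is spanned by eigenvectors of `F` with eigenvalues among the roots of `f`. -/
def IsSpanned (f : ℤ[X]) {V : Type} [AddCommGroup V] [Module ℂ V] (F : V →ₗ[ℂ] V) : Prop :=
  Submodule.span ℂ {v : V | ∃ z : ℂ, aeval z f = 0 ∧ F v = z • v} = ⊤

/-- The endomorphism `F` of `V` is diagonalizable with the characteristic polynomial `f`. -/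
def IsDiagonal (f : ℤ[X]) {V : Type} [AddCommGroup V] [Module ℂ V] [FiniteDimensional ℂ V]
    (F : V →ₗ[ℂ] V) : Prop :=
  Submodule.span ℂ {v : V | ∃ z : ℂ, F v = z • v} = ⊤ ∧
    F.charpoly = f.map (Int.castRingHom ℂ)

/-- `x` is an exotic Tate class of codimension `i` over the field with `q ^ s` elements: it lies in
`⋀ ^ (2 i) V`, `F ^ s x = (q ^ s) ^ i x`, and over no extension of the field with `q ^ s` elements it
is a linear combination of products of `i` divisor classes. -/
def IsExoticClass (q : ℕ) {V : Type} [AddCommGroup V] [Module ℂ V] (F : V →ₗ[ℂ] V) (i s : ℕ)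
    (x : ExteriorAlgebra ℂ V) : Prop :=
  x ∈ ⋀[ℂ]^(2 * i) V ∧ ExteriorAlgebra.map (F ^ s) x = ((q : ℂ) ^ i) ^ s • x ∧
    ∀ t : ℕ, 0 < t → x ∉ divisorProducts ((q : ℂ) ^ (s * t)) (F ^ (s * t)) i

/-- There are exotic Tate classes on a power of `A`, where `f` is the characteristic polynomial of
the Frobenius endomorphism of the abelian variety `A` over the field with `q` elements: for some
finite dimensional complex vector space `V` with an endomorphism `F`, spanned by eigenvectors with
eigenvalues among the roots of `f` (the space `H ^ 1 (A ^ k)`, or a subspace of it), there is an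
exotic Tate class of some codimension, over some extension of the field with `q` elements. -/
def ExoticOnPower (q : ℕ) (f : ℤ[X]) : Prop :=
  ∃ (V : Type) (_ : AddCommGroup V) (_ : Module ℂ V) (_ : FiniteDimensional ℂ V)
    (F : V →ₗ[ℂ] V), IsSpanned f F ∧
    ∃ (i s : ℕ) (x : ExteriorAlgebra ℂ V), 0 < s ∧ IsExoticClass q F i s x

/-- There are exotic Tate classes of codimension two on `A` itself, over the field with `q`
elements: for every finite dimensional complex vector space `V` with a diagonalizable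
endomorphism `F` with the characteristic polynomial `f` (the space `H ^ 1 (A)`) there is an exotic
Tate class in `⋀ ^ 4 V` over the field with `q` elements. -/
def ExoticInCodimTwo (q : ℕ) (f : ℤ[X]) : Prop :=
  ∀ (V : Type) [AddCommGroup V] [Module ℂ V] [FiniteDimensional ℂ V] (F : V →ₗ[ℂ] V),
    IsDiagonal f F → ∃ x : ExteriorAlgebra ℂ V, IsExoticClass q F 2 1 x

lemma exoticOnPower_iff {q : ℕ} {f : ℤ[X]} : ExoticOnPower q f ↔ HasExotic q f := by
  constructor
  · rintro ⟨V, i1, i2, i3, F, h1, i, s, x, hs, h2, h3, h4⟩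
    exact ⟨V, i1, i2, i3, F, h1, i, s, x, hs, h2, h3, h4⟩
  · rintro ⟨V, i1, i2, i3, F, h1, i, s, x, hs, h2, h3, h4⟩
    exact ⟨V, i1, i2, i3, F, h1, i, s, x, hs, h2, h3, h4⟩

lemma exoticInCodimTwo_iff {q : ℕ} {f : ℤ[X]} : ExoticInCodimTwo q f ↔ IsExotic q f := by
  constructor
  · intro h V _ _ _ F h1 h2
    obtain ⟨x, h3, h4, h5⟩ := h V F ⟨h1, h2⟩
    refine ⟨x, h3, ?_, fun t ht => ?_⟩
    · rw [pow_one, pow_one] at h4
      exact h4
    · have := h5 t ht
      rwa [one_mul] at this
  · intro h V _ _ _ F h1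
    obtain ⟨x, h3, h4, h5⟩ := h V F h1.1 h1.2
    refine ⟨x, h3, ?_, fun t ht => ?_⟩
    · rw [pow_one, pow_one]
      exact h4
    · rw [one_mul]
      exact h5 t ht

end Pool.Agent.H857.EF
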