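import Pool.Agent.H857.EF.Asm2
import Pool.Agent.H857.EF.P.S1
import Pool.Agent.H857.EF.P.S2a
import Pool.Agent.H857.EF.P.S2b
import Pool.Agent.H857.EF.P.S3
import Pool.Agent.H857.EF.P.S3m
import Pool.Agent.H857.EF.P.S4
import Pool.Agent.H857.EF.P.S4m
import Pool.Agent.H857.EF.P.S5a
import Pool.Agent.H857.EF.P.S5b
import Pool.Agent.H857.EF.P.S6a
import Pool.Agent.H857.EF.P.S6b
import Pool.Agent.H857.EF.P.S7
import Pool.Agent.H857.EF.P.S8
import Pool.Agent.H857.EF.P.S9
import Pool.Agent.H857.EF.P.S10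
import Pool.Agent.H857.EF.P.S11
import Pool.Agent.H857.EF.P.S13
import Pool.Agent.H857.EF.P.S14
import Pool.Agent.H857.EF.P.S17
import Pool.Agent.H857.EF.P.S18
import Pool.Agent.H857.EF.P.S19
import Pool.Agent.H857.EF.P.S20
import Pool.Agent.H857.EF.P.S20a
import Pool.Agent.H857.EF.P.S20b
import Pool.Agent.H857.EF.P.S21b
import Pool.Agent.H857.EF.P.S22i
import Pool.Agent.H857.EF.P.S23
import Pool.Agent.H857.EF.P.S26
import Pool.Agent.H857.EF.P.S27
import Pool.Agent.H857.EF.P.S28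
import Pool.Agent.H857.EF.P.S31
import Pool.Agent.H857.EF.P.S32
import Pool.Agent.H857.EF.P.S33

/-!
# Abelian fourfolds with exotic Tate classes: the statements together
-/

set_option autoImplicit false

namespace Pool.Agent.H857.EF

theorem all_s4m : S4m := H588.EF.s4m One.s1m H996.EFs2a.s2a H800.EF.s2b s3m

theorem all_s4 : S4 := H122.EF.s4 One.s1 H996.EFs2a.s2a H800.EF.s2b H233.EF.s3

theorem all_s5b : S5b := H738.EF.s5b H721.EF.s5a

theorem all_s6b : S6b := H962.EF.s6b H597.EF.s6a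

theorem all_s9 : S9 := H356.EFs9.s9 H233.EF.s3 H894.EF.s7 H962.EF8.s8

theorem all_s14 : S14 := H249.EF.s14 H356.EFs10.s10 H720.EFS.s11 H720.EFS.s12

theorem all_s15 : S15 := H249.EF.s15 H356.EFs10.s10 H720.EFS.s11

theorem all_s16 : S16 := H249.EF.s16 H720.EFS.s11

theorem all_s22i : S22i := s22i s19 (H187.EF.s20 H282.EFS.s20a H230.EFs20b.s20b) H187.EF.s21a
  H662.EF.s21b H721.EF.s33 H294.EFirr.s34

theorem all_s29 : S29 := H962.EF26.s29 (H588.EF.s25 all_s4m)

theorem all_s31 : S31 := H218.EF.s31 all_s4m s19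

theorem all_s32 : S32 := H294.EFirr.s32 H962.EF8.s8 H294.EFirr.s34

end Pool.Agent.H857.EF
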